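import Pool.Agent.H9.Proxy.Arith

/-!
# A strongly compact cardinal refutes the implication of Q1 for `^Ω_χ⊑` and `^Ω_χ⊑*`

The definitions (`PMinus` is the proxy principle `P⁻(κ, μ, R, θ, {κ}, ν)`) are in
`Pool/Agent/H9/Proxy/Defs.lean`; `StronglyCompact` is in `StrCompact.lean`.

Idea: if `κ` carries a `χ⁺`-complete uniform ultrafilter, then for every `(κ, 2, _χ⊑*)`-sequence
`C_α` there is a club `E` such that every subset of `E ∩ (cof(ω) ∪ cof(χ))` of size at most `χ`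
consists of limit points of a single `C_δ`. If `C_α` meets `χ` many pairwise disjoint subsets `B_i`
of `E ∩ cof(ω)` in elements of `nacc(C_α)`, then the first `χ` many of these elements have a supremum
`γ` with `cf γ = χ`, and coherence at `γ` makes them limit points of `C_α`, a contradiction. So
`θ ≥ χ` is impossible. The instance `θ = 1` only needs ladders of type `ω` at points of cofinality
`ω`; guessing is available for `κ = λ⁺` where `λ > σ` is strong limit of uncountable cofinality, by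
Solovay's theorem (`2^λ = λ⁺`) and Gregory's argument.
-/

open Set Cardinal Ordinal

universe u

namespace Pool.Agent.Results.MP_508052_lc.AboveStronglyCompact

open Pool.Agent.H9.Proxy

/-- The implication of Q1 for the relation scheme `Rel χ Ω`. -/
def Implication
    (Rel : Cardinal.{u} → Set Ordinal.{u} → Set Ordinal.{u} → Set Ordinal.{u} → Prop) : Prop :=
  ∀ (κ μ ν χ : Cardinal.{u}) (Ω : Set Ordinal.{u}), κ.IsRegular → ℵ₀ < κ →
    PMinus κ μ (Rel χ Ω) 1 ν → PMinus κ μ (Rel χ Ω) κ ν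

theorem main {κ χ : Cardinal.{u}} (hκ : κ.IsRegular) (hχ : χ.IsRegular) (h0 : ℵ₀ < χ)
    (hχκ : χ < κ) (hr : Reflects κ χ) (hG : Guess κ)
    (R : Set Ordinal.{u} → Set Ordinal.{u} → Prop) (hR : R = Sq ∨ R = SqStar) :
    PMinus κ 2 (OmegaRel ∅ (LeftRel χ R)) 1 2 ∧
      ∀ θ ν, χ ≤ θ → ¬ PMinus κ 2 (OmegaRel ∅ (LeftRel χ R)) θ ν := by
  constructor
  · have h1 := pMinus_one (χ := χ) h0 hG
    rcases hR with rfl | rfl
    · exact h1
    · refine h1.mono ?_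
      rintro C D hC _ ⟨h2 | h2, h3⟩
      · exact ⟨Or.inl (h2.sqStar hC), h3⟩
      · exact ⟨Or.inr h2, h3⟩
  · intro θ ν hθ h
    refine not_pMinus hκ hχ h0 hχκ hr hθ (ν := ν) (h.mono ?_)
    rintro C D hC _ ⟨h2 | h2, -⟩
    · left
      rcases hR with rfl | rfl
      · exact h2.sqStar hC
      · exact h2
    · exact Or.inr h2

theorem result :
    (∀ σ τ : Cardinal.{u}, StronglyCompact σ → ℵ₁ < σ ∧
      ∃ κ : Cardinal.{u}, τ < κ ∧ σ < κ ∧ κ.IsRegular ∧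
        ∀ χ : Cardinal.{u}, χ.IsRegular → ℵ₀ < χ → χ < σ →
          ∀ R : Set Ordinal.{u} → Set Ordinal.{u} → Prop, R = Sq ∨ R = SqStar →
            PMinus κ 2 (OmegaRel ∅ (LeftRel χ R)) 1 2 ∧
            ∀ θ ν, χ ≤ θ → ¬ PMinus κ 2 (OmegaRel ∅ (LeftRel χ R)) θ ν) ∧
    ((∃ σ : Cardinal.{u}, StronglyCompact σ) →
      ¬ Implication.{u} (fun χ Ω => OmegaRel Ω (LeftRel χ Sq)) ∧
      ¬ Implication.{u} (fun χ Ω => OmegaRel Ω (LeftRel χ SqStar))) := by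
  have part1 : ∀ σ τ : Cardinal.{u}, StronglyCompact σ → ℵ₁ < σ ∧
      ∃ κ : Cardinal.{u}, τ < κ ∧ σ < κ ∧ κ.IsRegular ∧
        ∀ χ : Cardinal.{u}, χ.IsRegular → ℵ₀ < χ → χ < σ →
          ∀ R : Set Ordinal.{u} → Set Ordinal.{u} → Prop, R = Sq ∨ R = SqStar →
            PMinus κ 2 (OmegaRel ∅ (LeftRel χ R)) 1 2 ∧
            ∀ θ ν, χ ≤ θ → ¬ PMinus κ 2 (OmegaRel ∅ (LeftRel χ R)) θ ν := by
    intro σ τ hσ
    refine ⟨aleph_one_lt hσ, ?_⟩
    obtain ⟨κ, h1, h2, h3, h4⟩ := exists_guess (τ := τ) hσ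
    exact ⟨κ, h1, h2, h3, fun χ hχ h0 hχσ R hR =>
      main h3 hχ h0 (hχσ.trans h2) (reflects_of_stronglyCompact hσ h3 h2.le h0.le hχσ) h4 R hR⟩
  refine ⟨part1, ?_⟩
  rintro ⟨σ, hσ⟩
  have hreg : (ℵ₁ : Cardinal.{u}).IsRegular := Cardinal.isRegular_aleph_one
  have h01 : ℵ₀ < (ℵ₁ : Cardinal.{u}) := Cardinal.aleph0_lt_aleph_one
  obtain ⟨h1, κ, -, h2, h3, h4⟩ := part1 σ 0 hσ
  have h0κ : ℵ₀ < κ := h01.trans (h1.trans h2)
  constructor
  · intro himp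
    obtain ⟨h5, h6⟩ := h4 ℵ₁ hreg h01 h1 Sq (Or.inl rfl)
    exact h6 κ 2 (h1.trans h2).le (himp κ 2 2 ℵ₁ ∅ h3 h0κ h5)
  · intro himp
    obtain ⟨h5, h6⟩ := h4 ℵ₁ hreg h01 h1 SqStar (Or.inr rfl)
    exact h6 κ 2 (h1.trans h2).le (himp κ 2 2 ℵ₁ ∅ h3 h0κ h5)

end Pool.Agent.Results.MP_508052_lc.AboveStronglyCompact
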