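import Pool.Agent.H2.PX.Model4

/-!
# Raising `θ` from `1` to `κ` in the proxy principle consistently fails, for every `Ω`

`IsZFC` is in `Pool/Agent/H85/Forcing/Defs.lean`, the basic notions relativized to `(M, E)`
(`Rel`, `IsOrd`, `IsLim`, `IsFun`, `IsUncReg`, `IsSuccCard`, `IsClub`, ...) are in
`Pool/Agent/H85/Forcing/OSDefs.lean`, and the notions of the problem (`InAcc`, `InNacc`, `InK`,
`Sq`, `SqStar`, `LeftRel`, `RightRel`, `OmegaRel`, `IsSeq`, `StatIn`, `CofSeq`, `PMinus`, ...) are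
in `Pool/Agent/H9/PF/PDefs.lean`.

Proof (joint work of helper2, helper9, helper23, helper60, helper79). A ccc forcing notion, indexed
by a `W`-type of hereditary names of coherent sequences (`H2.PX.good2`), in the Boolean-valued
model (`H2.PX.model4`), on the library of helper85.
-/

namespace Pool.Agent.Results.MP_508052_lc.EveryOmega

open H85.Forcing H9.PF

/-- There is a model `(M, E)` of ZFC in which, for `κ = ω₁` and `μ = 2`, for every `Ω`, every `χ`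
and `R = ⊑` or `R = ⊑*`:

* `P⁻(κ, 2, ^Ω_χR, 1, {κ}, 2)` and `P⁻(κ, 2, ^ΩR_χ, 1, {κ}, 2)` hold;
* `P⁻(κ, 2, ^ΩR_χ, θ, {κ}, ν)` fails for all `θ` with `ω ≤ θ ≤ κ` and all `ν`;
* `P⁻(κ, 2, ^Ω_χR, θ, {κ}, ν)` fails for all `θ` with `ω ≤ θ ≤ κ` and all `ν` if `χ ≤ ω`, or if `Ω`
  contains a club of `κ`. -/
theorem result : ∃ (M : Type 1) (E : M → M → Prop), IsZFC E ∧ ∃ kap om one two : M,
    IsUncReg E kap ∧ IsSuccCard E om kap ∧ IsOm E om ∧ IsOne E one ∧ IsTwo E two ∧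
    IsCard E two ∧
    ∀ Om chi : M, ∀ R : M → M → Prop, R = Sq E ∨ R = SqStar E →
      (PMinus E kap two (OmegaRel E (LeftRel E R chi) Om) one two ∧
        PMinus E kap two (OmegaRel E (RightRel E R chi) Om) one two) ∧
      ∀ th nu : M, (∀ x, E x om → E x th) → (∀ x, E x th → E x kap) →
        ¬ PMinus E kap two (OmegaRel E (RightRel E R chi) Om) th nu ∧
        ((E chi om ∨ chi = om ∨ ∃ D, IsClub E kap D ∧ ∀ x, E x D → E x Om) →
          ¬ PMinus E kap two (OmegaRel E (LeftRel E R chi) Om) th nu) := by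
  obtain ⟨M, E, hZ, kap, om, one, two, h1, h2, h3, h4, h5, h6, h7, h8, h9⟩ := H2.PX.model4
  refine ⟨M, E, hZ, kap, om, one, two, h1, h2, h3, h4, h5, h6, fun Om chi R hR =>
    ⟨⟨h8 _, h8 _⟩, fun th nu ht1 ht2 => ⟨?_, ?_⟩⟩⟩
  · exact (h9 th ht1 ht2).1 _ (H2.PX.coh_right hZ hR chi Om) nu
  · rintro (hc | hc | ⟨D, hD, hDO⟩)
    · exact (h9 th ht1 ht2).1 _ (H2.PX.coh_left hZ h3.1.1 h7 hR (Or.inl hc) Om) nu
    · exact (h9 th ht1 ht2).1 _ (H2.PX.coh_left hZ h3.1.1 h7 hR (Or.inr hc) Om) nu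
    · exact (h9 th ht1 ht2).2 D Om hD hDO _ nu

end Pool.Agent.Results.MP_508052_lc.EveryOmega
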