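import Pool.Agent.H9.Proxy.Weakly
import Pool.Agent.H9.Proxy.Shelah
import Pool.Agent.H9.Proxy.RightPos

/-!
# The implication of Q1 can fail, for each of the four relations

The definitions (`PMinus` is the proxy principle `P⁻(κ, μ, R, θ, {κ}, ν)`) are in
`Pool/Agent/H9/Proxy/Defs.lean`; the hypotheses `WeaklyCompact`, `Diamond` (the principle
`♦(S^κ_ω)`) and `FullReflection` are defined in `Pool/Agent/H9/Proxy/Hyp.lean`.

Relations `^Ω_χ⊑` and `^Ω_χ⊑*`. Let `κ` be weakly compact and `χ < κ` regular uncountable. For every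
`(κ, 2, _χ⊑*)`-sequence `C_α` there is a club `E` such that every subset of `E ∩ (cof(ω) ∪ cof(χ))`
of size at most `χ` consists of limit points of a single `C_δ`. If `C_α` meets `χ` many pairwise
disjoint subsets `B_i` of `E ∩ cof(ω)` in elements of `nacc(C_α)`, then the first `χ` many of these
elements have a supremum `γ` with `cf γ = χ`, and coherence at `γ` makes them limit points of `C_α`,
a contradiction. So `θ ≥ χ` is impossible, while `θ = 1` only needs ladders of type `ω`.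

Relations `^Ω⊑_χ` and `^Ω⊑*_χ`. Let `κ = lam⁺`, `χ = κ` and `Ω = S^κ_lam`. The sets
`S_i = {δ ∈ S^κ_ω : otp(C_δ) = i}` for `i < lam` cover `S^κ_ω`, so one of them is stationary and
reflects at almost all points of `S^κ_lam`. If `θ ≥ lam` then a guessing `α` has `cf α = lam` and
`C_α` is not exempt, and coherence bounds the order type of a final segment of `C_α` by `i`, a
contradiction. For `θ = 1` one takes ladders of type `ω` (guessing exists by `2^lam = lam⁺`) and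
exempt clubs elsewhere.
-/

open Set Cardinal Ordinal

universe u

namespace Pool.Agent.Results.MP_508052_lc.FourRelations

open Pool.Agent.H9.Proxy

/-- The implication of Q1 for the relation scheme `Rel χ Ω`. -/
def Implication
    (Rel : Cardinal.{u} → Set Ordinal.{u} → Set Ordinal.{u} → Set Ordinal.{u} → Prop) : Prop :=
  ∀ (κ μ ν χ : Cardinal.{u}) (Ω : Set Ordinal.{u}), κ.IsRegular → ℵ₀ < κ →
    PMinus κ μ (Rel χ Ω) 1 ν → PMinus κ μ (Rel χ Ω) κ ν

theorem left {κ χ : Cardinal.{u}} (hκ : κ.IsRegular) (hχ : χ.IsRegular) (h0 : ℵ₀ < χ)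
    (hχκ : χ < κ) (hr : Reflects κ χ) (hG : Guess κ)
    (R : Set Ordinal.{u} → Set Ordinal.{u} → Prop) (hR : R = Sq ∨ R = SqStar) :
    PMinus κ 2 (OmegaRel ∅ (LeftRel χ R)) 1 2 ∧
      ∀ θ ν, χ ≤ θ → ¬ PMinus κ 2 (OmegaRel ∅ (LeftRel χ R)) θ ν := by
  constructor
  · have h1 := pMinus_one (χ := χ) h0 hG
    rcases hR with rfl | rfl
    · exact h1
    · refine h1.mono ?_
      rintro C D hC _ ⟨h2 | h2, h3⟩
      · exact ⟨Or.inl (h2.sqStar hC), h3⟩
      · exact ⟨Or.inr h2, h3⟩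
  · intro θ ν hθ h
    refine not_pMinus hκ hχ h0 hχκ hr hθ (ν := ν) (h.mono ?_)
    rintro C D hC _ ⟨h2 | h2, -⟩
    · left
      rcases hR with rfl | rfl
      · exact h2.sqStar hC
      · exact h2
    · exact Or.inr h2

theorem right {κ lam : Cardinal.{u}} (hlam : lam.IsRegular) (h0 : ℵ₀ < lam)
    (hκ : κ = Order.succ lam) (h2 : 2 ^ lam = κ) (hr : FullReflection κ lam)
    (R : Set Ordinal.{u} → Set Ordinal.{u} → Prop) (hR : R = Sq ∨ R = SqStar) :
    PMinus κ 2 (OmegaRel {α | α.cof = lam} (RightRel κ R)) 1 2 ∧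
      ∀ θ ν, lam ≤ θ → ¬ PMinus κ 2 (OmegaRel {α | α.cof = lam} (RightRel κ R)) θ ν := by
  have hκr : κ.IsRegular := by
    rw [hκ]
    exact Cardinal.isRegular_succ hlam.aleph0_le
  have hlt : lam < κ := by
    rw [hκ]
    exact Order.lt_succ lam
  have hpow : κ ^ lam ≤ κ := by
    rw [← h2, ← Cardinal.power_mul, Cardinal.mul_eq_self hlam.aleph0_le]
  constructor
  · have h1 := pMinus_one_right hκ (guess_shelah hlam h0 hκ hpow)
    rcases hR with rfl | rfl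
    · exact h1
    · refine h1.mono ?_
      rintro C D hC _ ⟨h2 | h2, h3⟩
      · exact ⟨Or.inl (h2.sqStar hC), h3⟩
      · exact ⟨Or.inr h2, h3⟩
  · intro θ ν hθ h
    refine not_pMinus_right (χ := κ) hlam h0 hκr hlt hr hθ (ν := ν) (h.mono ?_)
    rintro C D hC _ ⟨h2 | h2, h3⟩
    · refine ⟨Or.inl ?_, h3⟩
      rcases hR with rfl | rfl
      · exact h2.sqStar hC
      · exact h2
    · exact ⟨Or.inr h2, h3⟩

theorem result :
    -- (1) `^Ω_χ⊑` and `^Ω_χ⊑*` at a weakly compact cardinal `κ` with `♦(S^κ_ω)`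
    (∀ κ χ : Cardinal.{u}, WeaklyCompact κ → Diamond κ → χ.IsRegular → ℵ₀ < χ → χ < κ →
      ∀ R : Set Ordinal.{u} → Set Ordinal.{u} → Prop, R = Sq ∨ R = SqStar →
        PMinus κ 2 (OmegaRel ∅ (LeftRel χ R)) 1 2 ∧
        ∀ θ ν, χ ≤ θ → ¬ PMinus κ 2 (OmegaRel ∅ (LeftRel χ R)) θ ν) ∧
    -- (2) `^Ω⊑_χ` and `^Ω⊑*_χ` at `κ = lam⁺ = 2^lam` with full reflection of `S^κ_ω` in `S^κ_lam`
    (∀ lam κ : Cardinal.{u}, lam.IsRegular → ℵ₀ < lam → κ = Order.succ lam → 2 ^ lam = κ →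
      FullReflection κ lam →
      ∀ R : Set Ordinal.{u} → Set Ordinal.{u} → Prop, R = Sq ∨ R = SqStar →
        PMinus κ 2 (OmegaRel {α | α.cof = lam} (RightRel κ R)) 1 2 ∧
        ∀ θ ν, lam ≤ θ → ¬ PMinus κ 2 (OmegaRel {α | α.cof = lam} (RightRel κ R)) θ ν) ∧
    -- (3) so the implication of Q1 fails for each of the four relations
    ((∃ κ : Cardinal.{u}, WeaklyCompact κ ∧ Diamond κ) →
      ¬ Implication.{u} (fun χ Ω => OmegaRel Ω (LeftRel χ Sq)) ∧
      ¬ Implication.{u} (fun χ Ω => OmegaRel Ω (LeftRel χ SqStar))) ∧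
    ((∃ lam : Cardinal.{u}, lam.IsRegular ∧ ℵ₀ < lam ∧ 2 ^ lam = Order.succ lam ∧
        FullReflection (Order.succ lam) lam) →
      ¬ Implication.{u} (fun χ Ω => OmegaRel Ω (RightRel χ Sq)) ∧
      ¬ Implication.{u} (fun χ Ω => OmegaRel Ω (RightRel χ SqStar))) := by
  have part1 : ∀ κ χ : Cardinal.{u}, WeaklyCompact κ → Diamond κ → χ.IsRegular → ℵ₀ < χ → χ < κ →
      ∀ R : Set Ordinal.{u} → Set Ordinal.{u} → Prop, R = Sq ∨ R = SqStar →
        PMinus κ 2 (OmegaRel ∅ (LeftRel χ R)) 1 2 ∧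
        ∀ θ ν, χ ≤ θ → ¬ PMinus κ 2 (OmegaRel ∅ (LeftRel χ R)) θ ν := by
    intro κ χ hκ hd hχ h0 hχκ R hR
    have hr := hκ.1.isRegular
    exact left hr hχ h0 hχκ (reflects_of_weaklyCompact hκ h0.le hχκ)
      (guess_of_diamond hr (h0.trans hχκ) hd) R hR
  refine ⟨part1, fun lam κ h1 h2 h3 h4 h5 R hR => right h1 h2 h3 h4 h5 R hR, ?_, ?_⟩
  · rintro ⟨κ, hκ, hd⟩
    have hreg : (ℵ₁ : Cardinal.{u}).IsRegular := Cardinal.isRegular_aleph_one
    have h01 : ℵ₀ < (ℵ₁ : Cardinal.{u}) := Cardinal.aleph0_lt_aleph_one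
    have h1 : ℵ₀ < κ := hκ.1.aleph0_lt
    have h2 : ℵ₁ < κ := by
      have h3 : (2 : Cardinal.{u}) ^ (ℵ₀ : Cardinal.{u}) < κ :=
        hκ.1.isStrongLimit.isStrongPrelimit h1
      exact (Cardinal.aleph_one_le_continuum).trans_lt h3
    constructor
    · intro himp
      obtain ⟨h5, h6⟩ := part1 κ ℵ₁ hκ hd hreg h01 h2 Sq (Or.inl rfl)
      exact h6 κ 2 h2.le (himp κ 2 2 ℵ₁ ∅ hκ.1.isRegular h1 h5)
    · intro himp
      obtain ⟨h5, h6⟩ := part1 κ ℵ₁ hκ hd hreg h01 h2 SqStar (Or.inr rfl)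
      exact h6 κ 2 h2.le (himp κ 2 2 ℵ₁ ∅ hκ.1.isRegular h1 h5)
  · rintro ⟨lam, h1, h2, h3, h4⟩
    have hκr : (Order.succ lam).IsRegular := Cardinal.isRegular_succ h1.aleph0_le
    have hlt : lam < Order.succ lam := Order.lt_succ lam
    constructor
    · intro himp
      obtain ⟨h5, h6⟩ := right h1 h2 rfl h3 h4 Sq (Or.inl rfl)
      exact h6 _ 2 hlt.le (himp _ 2 2 _ _ hκr (h2.trans hlt) h5)
    · intro himp
      obtain ⟨h5, h6⟩ := right h1 h2 rfl h3 h4 SqStar (Or.inr rfl)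
      exact h6 _ 2 hlt.le (himp _ 2 2 _ _ hκr (h2.trans hlt) h5)

end Pool.Agent.Results.MP_508052_lc.FourRelations
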